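import Mathlib

/-!
# The T-strong open set condition fails for R = 2, B = {0}
-/

namespace Pool.Agent.Results.MP_332e42_an.SingletonDigit

/-- every complex eigenvalue of the integer matrix `R` has modulus larger than 1 -/
def Expansive {d : ℕ} (R : Matrix (Fin d) (Fin d) ℤ) : Prop :=
  ∀ (z : ℂ) (v : Fin d → ℂ), v ≠ 0 → (R.map (Int.cast : ℤ → ℂ)).mulVec v = z • v → 1 < ‖z‖

/-- congruence modulo `R ℤ^d` -/
def Cong {d : ℕ} (R : Matrix (Fin d) (Fin d) ℤ) (a b : Fin d → ℤ) : Prop :=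
  ∃ u : Fin d → ℤ, a - b = R.mulVec u

/-- simple digit sets: finite, nonempty, no two distinct elements are congruent -/
def IsSimple {d : ℕ} (R : Matrix (Fin d) (Fin d) ℤ) (B : Finset (Fin d → ℤ)) : Prop :=
  B.Nonempty ∧ ∀ a ∈ B, ∀ b ∈ B, Cong R a b → a = b

/-- complete sets of representatives modulo `R ℤ^d` -/
def IsComplete {d : ℕ} (R : Matrix (Fin d) (Fin d) ℤ) (B : Finset (Fin d → ℤ)) : Prop :=
  ∀ v : Fin d → ℤ, ∃! b, b ∈ B ∧ Cong R v b

/-- `T` is the attractor of the maps `x ↦ R⁻¹ (x + b)`, `b ∈ B`: a nonempty compact set `T` with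
`T = ⋃ R⁻¹ (T + b)` (stated without the inverse) -/
def IsAttractor {d : ℕ} (R : Matrix (Fin d) (Fin d) ℤ) (B : Finset (Fin d → ℤ))
    (T : Set (Fin d → ℝ)) : Prop :=
  T.Nonempty ∧ IsCompact T ∧
    ∀ x, x ∈ T ↔ ∃ b ∈ B, ∃ y ∈ T, (R.map (Int.cast : ℤ → ℝ)).mulVec x = y + fun i => (b i : ℝ)

/-- the T-strong open set condition -/
def TSOSC {d : ℕ} (R : Matrix (Fin d) (Fin d) ℤ) (B : Finset (Fin d → ℤ)) : Prop :=
  ∃ C : Finset (Fin d → ℤ), B ⊆ C ∧ IsComplete R C ∧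
    ∃ T T' : Set (Fin d → ℝ), IsAttractor R B T ∧ IsAttractor R C T' ∧
      (T ∩ interior T').Nonempty

/-- the 1 × 1 matrix 2 -/
def R2 : Matrix (Fin 1) (Fin 1) ℤ := !![2]

theorem mul2 (x : Fin 1 → ℝ) : (R2.map (Int.cast : ℤ → ℝ)).mulVec x = fun i => 2 * x i := by
  funext i
  fin_cases i
  simp [R2, Matrix.mulVec, dotProduct]

theorem cong2 (a b : Fin 1 → ℤ) : Cong R2 a b ↔ ∃ u : ℤ, a 0 - b 0 = 2 * u := by
  constructor
  · rintro ⟨u, hu⟩
    refine ⟨u 0, ?_⟩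
    have := congrFun hu 0
    simpa [R2, Matrix.mulVec, dotProduct] using this
  · rintro ⟨u, hu⟩
    refine ⟨fun _ => u, ?_⟩
    funext i
    fin_cases i
    simpa [R2, Matrix.mulVec, dotProduct] using hu

theorem expansive2 : Expansive R2 := by
  intro z v hv h
  have h0 := congrFun h 0
  have hv0 : v 0 ≠ 0 := by
    intro h1
    apply hv
    funext i
    fin_cases i
    exact h1
  have h1 : 2 * v 0 = z * v 0 := by
    simpa [R2, Matrix.mulVec, dotProduct] using h0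
  have h2 : z = 2 := (mul_right_cancel₀ hv0 h1).symm
  rw [h2]
  norm_num

theorem simple2 : IsSimple R2 {0} := by
  refine ⟨⟨0, by simp⟩, ?_⟩
  intro a ha b hb _
  rw [Finset.mem_singleton] at ha hb
  rw [ha, hb]

/-- if all digits are `≥ 0` then the attractor lies in the half line -/
theorem nonneg_of (C : Finset (Fin 1 → ℤ)) (s : ℝ) (hC : ∀ b ∈ C, 0 ≤ s * (b 0 : ℝ))
    (T : Set (Fin 1 → ℝ)) (hT : IsAttractor R2 C T) : ∀ x ∈ T, 0 ≤ s * x 0 := by
  obtain ⟨hne, hc, hx⟩ := hT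
  obtain ⟨m, hm, hmin⟩ := hc.exists_isMinOn hne
    (f := fun x : Fin 1 → ℝ => s * x 0) (by fun_prop)
  obtain ⟨b, hb, y, hy, he⟩ := (hx m).1 hm
  rw [mul2] at he
  have h1 : 2 * m 0 = y 0 + (b 0 : ℝ) := by
    have := congrFun he 0
    simpa using this
  have h2 : s * m 0 ≤ s * y 0 := hmin hy
  have h3 := hC b hb
  have h5 : 2 * (s * m 0) = s * y 0 + s * (b 0 : ℝ) := by linear_combination s * h1
  have h4 : 0 ≤ s * m 0 := by linarith
  intro x hxT
  exact h4.trans (hmin hxT)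

theorem not_tsosc : ¬ TSOSC R2 {0} := by
  rintro ⟨C, hBC, hcomp, T, T', hT, hT', x, hxT, hxi⟩
  have h0C : (0 : Fin 1 → ℤ) ∈ C := hBC (by simp)
  -- the attractor of the single digit is the origin
  have hx0 : x 0 = 0 := by
    have h1 := nonneg_of {0} 1 (by simp) T hT x hxT
    have h2 := nonneg_of {0} (-1) (by simp) T hT x hxT
    linarith
  have hx : x = 0 := by
    funext i
    fin_cases i
    exact hx0
  rw [hx] at hxi
  -- all digits have the same sign
  obtain ⟨s, hs0, hs⟩ : ∃ s : ℝ, s ≠ 0 ∧ ∀ b ∈ C, 0 ≤ s * (b 0 : ℝ) := by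
    obtain ⟨c, ⟨hcC, hc⟩, huniq⟩ := hcomp (fun _ => 1)
    have key : ∀ b ∈ C, b = 0 ∨ b = c := by
      intro b hb
      rcases Int.emod_two_eq_zero_or_one (b 0) with h | h
      · left
        obtain ⟨e, ⟨he, he2⟩, hu⟩ := hcomp b
        have h1 := hu b ⟨hb, (cong2 b b).2 ⟨0, by simp⟩⟩
        have h2 := hu 0 ⟨h0C, (cong2 b 0).2 ⟨b 0 / 2, by simp; omega⟩⟩
        rw [h1, h2]
      · right
        refine huniq b ⟨hb, (cong2 _ b).2 ⟨(1 - b 0) / 2, by omega⟩⟩
    rcases le_or_gt 0 (c 0) with h | h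
    · refine ⟨1, one_ne_zero, fun b hb => ?_⟩
      rcases key b hb with rfl | rfl
      · simp
      · rw [one_mul]
        exact_mod_cast h
    · refine ⟨-1, by norm_num, fun b hb => ?_⟩
      rcases key b hb with rfl | rfl
      · simp
      · have : (b 0 : ℝ) < 0 := by exact_mod_cast h
        linarith
  have hnn := nonneg_of C s hs T' hT'
  rw [mem_interior_iff_mem_nhds, Metric.mem_nhds_iff] at hxi
  obtain ⟨ε, hε, hball⟩ := hxi
  rcases lt_or_gt_of_ne hs0 with h | h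
  · have h1 : (fun _ => ε / 2 : Fin 1 → ℝ) ∈ T' := by
      apply hball
      rw [mem_ball_zero_iff, pi_norm_lt_iff hε]
      intro i
      rw [Real.norm_eq_abs, abs_of_pos (by linarith)]
      linarith
    have h2 : 0 ≤ s * (ε / 2) := hnn _ h1
    nlinarith
  · have h1 : (fun _ => -(ε / 2) : Fin 1 → ℝ) ∈ T' := by
      apply hball
      rw [mem_ball_zero_iff, pi_norm_lt_iff hε]
      intro i
      rw [norm_neg, Real.norm_eq_abs, abs_of_pos (by linarith)]
      linarith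
    have h2 : 0 ≤ s * (-(ε / 2)) := hnn _ h1
    nlinarith

/-- The T-strong open set condition fails for `d = 1`, `R = 2`, `B = {0}`. -/
theorem result : (Expansive R2 ∧ IsSimple R2 {0} ∧ ¬ TSOSC R2 {0}) ∧
    ¬ ∀ (d : ℕ) (R : Matrix (Fin d) (Fin d) ℤ) (B : Finset (Fin d → ℤ)), 1 ≤ d →
      Expansive R → IsSimple R B → TSOSC R B :=
  ⟨⟨expansive2, simple2, not_tsosc⟩,
    fun h => not_tsosc (h 1 R2 {0} le_rfl expansive2 simple2)⟩

end Pool.Agent.Results.MP_332e42_an.SingletonDigit
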